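import Pool.Agent.H18.VZ.Targets
import Pool.Agent.H37.HX.ALX
import Pool.Agent.H33.HX.CHH
import Pool.Agent.H8.HZ.CNT

/-!
# The jacobian determinant on the hypersurface (JDT)
-/

open MvPolynomial
open Pool.Agent.H12.ZD (pmap)
open Pool.Agent.H18.HIT Pool.Agent.H18.HX Pool.Agent.H18.VZ

namespace Pool.Agent.H63.VZ

theorem dd_self {N : ℕ} {k : Type} [Field k] (P : Po (N + 1) k) (l : Fin N) : dd P l P = 0 := by
  unfold dd
  simp only [Derivation.coe_sub, Derivation.coe_smul, Pi.sub_apply, Pi.smul_apply, smul_eq_mul]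
  ring

theorem dd_X {N : ℕ} {k : Type} [Field k] (P : Po (N + 1) k) (l j : Fin N) :
    dd P l (X j.succ) = if l = j then pderiv 0 P else 0 := by
  unfold dd
  simp only [Derivation.coe_sub, Derivation.coe_smul, Pi.sub_apply, Pi.smul_apply, smul_eq_mul]
  rw [pderiv_X_of_ne (Fin.succ_ne_zero j), mul_zero, sub_zero]
  split_ifs with h
  · rw [h, pderiv_X_self, mul_one]
  · rw [pderiv_X_of_ne (fun h1 => h (Fin.succ_injective _ h1).symm), mul_zero]

theorem pf_JDT : T_JDT := by
  classical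
  intro N k _ _ P F hirr hm hF hjac
  have := Pool.Agent.H37.HX.isPrime_span hirr
  obtain ⟨mk, hmk⟩ : ∃ mk : Po (N + 1) k →ₐ[k] Po (N + 1) k ⧸ Ideal.span {P},
    mk = Ideal.Quotient.mkₐ k (Ideal.span {P}) := ⟨_, rfl⟩
  have hmk0 : ∀ x : Po (N + 1) k, mk x = 0 ↔ P ∣ x := by
    intro x
    rw [hmk, Ideal.Quotient.mkₐ_eq_mk, Ideal.Quotient.eq_zero_iff_mem, Ideal.mem_span_singleton]
  have hsurj : Function.Surjective mk := by
    rw [hmk]
    exact Ideal.Quotient.mkₐ_surjective k _
  have hdet : (Matrix.of fun l i : Fin N => mk (dd P l (F i.succ))).det = 0 := by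
    have h1 : (Matrix.of fun l i : Fin N => mk (dd P l (F i.succ))) =
        mk.mapMatrix (Matrix.of fun l i : Fin N => dd P l (F i.succ)) := by
      ext i j
      rfl
    rw [h1, ← AlgHom.map_det]
    exact (hmk0 _).2 hjac
  obtain ⟨w, hw, hMw⟩ := Matrix.exists_vecMul_eq_zero_iff.mpr hdet
  choose w' hw' using fun j => hsurj (w j)
  obtain ⟨d, hd⟩ : ∃ d : Derivation k (Po (N + 1) k) (Po (N + 1) k), d = ∑ l, w' l • dd P l :=
    ⟨_, rfl⟩
  have hda : ∀ x, d x = ∑ l, w' l * dd P l x := by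
    intro x
    have h1 : (∑ l, w' l • dd P l : Derivation k (Po (N + 1) k) (Po (N + 1) k)) x =
        ∑ l, (w' l • dd P l) x :=
      map_sum ((Pi.evalAddMonoidHom (fun _ : Po (N + 1) k => Po (N + 1) k) x).comp
        Derivation.coeFnAddMonoidHom) (fun l => w' l • dd P l) Finset.univ
    rw [hd, h1]
    rfl
  have hdF : ∀ i : Fin N, mk (d (F i.succ)) = 0 := by
    intro i
    have h1 := congrFun hMw i
    rw [hda, map_sum]
    simp only [map_mul, hw']
    exact h1
  have hdP : d P = 0 := by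
    rw [hda]
    exact Finset.sum_eq_zero fun l _ => by rw [dd_self, mul_zero]
  have hker : ∀ x : Po (N + 1) k, mk x = 0 → mk (d x) = 0 := by
    intro x hx
    obtain ⟨a, rfl⟩ := (hmk0 x).1 hx
    rw [d.leibniz, smul_eq_mul, smul_eq_mul, map_add, map_mul, map_mul, hdP, map_zero,
      (hmk0 P).2 dvd_rfl, zero_mul, mul_zero, add_zero]
  obtain ⟨D, hD⟩ : ∃ D : Derivation k (Po (N + 1) k ⧸ Ideal.span {P})
      (Po (N + 1) k ⧸ Ideal.span {P}), ∀ x, D (mk x) = mk (d x) :=
    ⟨Derivation.liftOfSurjective hsurj hker, fun x =>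
      Derivation.liftOfSurjective_apply hsurj hker x⟩
  have hbas := Pool.Agent.H37.HX.basis_G hirr hm hF
  have halg := hbas.isAlgebraic
  have hDA : ∀ a ∈ Algebra.adjoin k (Set.range
      (fun j : Fin N => (Ideal.Quotient.mk (Ideal.span {P}) (F j.succ)))), D a = 0 := by
    intro a ha
    induction ha using Algebra.adjoin_induction with
    | mem x hx =>
      obtain ⟨i, rfl⟩ := hx
      have h1 : Ideal.Quotient.mk (Ideal.span {P}) (F i.succ) = mk (F i.succ) := by
        rw [hmk]
        rfl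
      change D (Ideal.Quotient.mk (Ideal.span {P}) (F i.succ)) = 0
      rw [h1, hD, hdF]
    | algebraMap r => exact D.map_algebraMap r
    | add x y _ _ hx hy => rw [map_add, hx, hy, add_zero]
    | mul x y _ _ hx hy => rw [D.leibniz, hx, hy, smul_zero, smul_zero, add_zero]
  have : CharZero (Po (N + 1) k ⧸ Ideal.span {P}) :=
    charZero_of_injective_algebraMap (algebraMap k _).injective
  have hPx : mk (pderiv 0 P) ≠ 0 := fun h =>
    Pool.Agent.H33.HX.chh_pd hirr hm ((hmk0 _).1 h)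
  apply hw
  funext j
  have h2 := Pool.Agent.H8.HZ.derivation_eq_zero D _ hDA (halg.isAlgebraic (mk (X j.succ)))
  rw [hD, hda, map_sum] at h2
  simp only [map_mul, hw', dd_X] at h2
  rw [Finset.sum_eq_single j] at h2
  · rw [if_pos rfl] at h2
    rcases mul_eq_zero.1 h2 with h3 | h3
    · exact h3
    · exact absurd h3 hPx
  · intro l _ hl
    rw [if_neg hl, map_zero, mul_zero]
  · intro h
    exact absurd (Finset.mem_univ j) h

end Pool.Agent.H63.VZ
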